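import Pool.Agent.H365.TF.Stm2
import Pool.Agent.H747.TF.KT

/-!
# Project TF, part 2 (helper365): the group generated by `K` and `Q` is perfect (by helper261)
-/

set_option autoImplicit false

namespace Pool.Agent.H365.TF

open Pool.Agent.N44.NS (E3 el)

namespace PG261

open KTH747

/-- commutators of a subgroup -/
def Cm {G : Type} [Group G] (P : Subgroup G) : Subgroup G :=
  Subgroup.closure {g | ∃ x ∈ P, ∃ y ∈ P, g = x * y * x⁻¹ * y⁻¹}

theorem map_le {G H : Type} [Group G] [Group H] (f : G →* H) (K : Subgroup G) (P : Subgroup H)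
    (hK : K ≤ Cm K) (hf : K.map f ≤ P) : K.map f ≤ Cm P := by
  refine (Subgroup.map_mono hK).trans ?_
  unfold Cm
  rw [MonoidHom.map_closure, Subgroup.closure_le]
  rintro _ ⟨g, ⟨x, hx, y, hy, rfl⟩, rfl⟩
  refine Subgroup.subset_closure ⟨f x, hf ⟨x, hx, rfl⟩, f y, hf ⟨y, hy, rfl⟩, ?_⟩
  rw [map_mul, map_mul, map_mul, map_inv, map_inv]

theorem VV_le {A B : Type} [Ring A] [Ring B] (i : B →+* A) (P : Subgroup (Tri (Matrix (Fin 3) (Fin 3) A)))
    (hP : KK i ≤ P) : VV i ≤ Cm P := by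
  rintro _ ⟨x, hx, rfl⟩
  choose b hb using hx
  have e : T x = ((Finset.univ : Finset (Fin 3 × Fin 3)).toList.map
      (fun p => T (Matrix.single p.1 p.2 (x p.1 p.2)))).prod := by
    rw [prod_T, Finset.sum_map_toList, Fintype.sum_prod_type]
    congr 1
    exact Matrix.matrix_eq_sum_single x
  rw [e]
  apply Subgroup.list_prod_mem
  intro u hu
  rw [List.mem_map] at hu
  obtain ⟨p, -, rfl⟩ := hu
  have hne : p.1 ≠ p.1 + 1 := by
    have : ∀ q : Fin 3, q ≠ q + 1 := by decide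
    exact this _
  refine Subgroup.subset_closure ⟨psi i (el p.1 (p.1 + 1) hne (b p.1 p.2)), hP ?_,
    T (Matrix.single (p.1 + 1) p.2 (1 : A)), hP ?_, ?_⟩
  · rw [KK_eq]
    exact Subgroup.mem_sup_left ⟨_, Subgroup.subset_closure ⟨_, _, _, _, rfl⟩, rfl⟩
  · rw [KK_eq]
    refine Subgroup.mem_sup_right ⟨_, ?_, rfl⟩
    have := Ent.single (i := i) (p.1 + 1) p.2 1
    rwa [map_one] at this
  · rw [hb]
    exact comm_el i p.1 (p.1 + 1) p.2 hne (b p.1 p.2)

end PG261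

open KTH747 PG261

theorem t_PG : S_KM → Pool.Agent.H365.LS.S_PERF → S_PG := by
  intro _ hperf A B _ _ i
  have hP : KK i ≤ KK i ⊔ QQ A := le_sup_left
  have hK : KK i ≤ Cm (KK i ⊔ QQ A) := by
    have h1 : (E3 B).map (psi i) ≤ KK i := by
      rw [KK_eq]
      exact le_sup_left
    have h2 := map_le (psi i) (E3 B) (KK i ⊔ QQ A) (hperf B) (h1.trans hP)
    have h3 := VV_le i (KK i ⊔ QQ A) hP
    calc KK i = (E3 B).map (psi i) ⊔ VV i := KK_eq i
      _ ≤ Cm (KK i ⊔ QQ A) := sup_le h2 h3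
  have hQ : QQ A ≤ Cm (KK i ⊔ QQ A) :=
    map_le (rHom _) (E3 A) (KK i ⊔ QQ A) (hperf A) le_sup_right
  exact sup_le hK hQ

end Pool.Agent.H365.TF
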